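import Mathlib

set_option autoImplicit false

/-!
# Affine maps of maximal order on groups with small commuting probability

For the affine group `G = AGL(1, p)` over `𝔽_p` the map `A(x) = a x b⁻¹`, with `a` a nontrivial
translation and `b` the multiplication by a primitive root, is an affine map of `G` of order
`p (p - 1) = |G|`, whereas the commuting probability of `G` is `O(1 / p)`.
-/

namespace Pool.Agent.Results.MP_1004d8_al.AffineCommProb

/-- `A` is an affine map of the group `G`: `A x = g * α x` with `g ∈ G` and `α ∈ Aut G`. -/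
def IsAffineMap {G : Type} [Group G] (A : Equiv.Perm G) : Prop :=
  ∃ (g : G) (α : MulAut G), ∀ x : G, A x = g * α x

/-- The affine group `x ↦ u x + v` of the field with `p` elements. -/
@[ext] structure Aff (p : ℕ) where
  u : (ZMod p)ˣ
  v : ZMod p

namespace Aff

variable {p : ℕ}

instance : Mul (Aff p) := ⟨fun x y => ⟨x.u * y.u, x.u * y.v + x.v⟩⟩
instance : One (Aff p) := ⟨⟨1, 0⟩⟩
instance : Inv (Aff p) := ⟨fun x => ⟨x.u⁻¹, -((x.u⁻¹ : (ZMod p)ˣ) * x.v)⟩⟩

@[simp] lemma mul_u (x y : Aff p) : (x * y).u = x.u * y.u := rfl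
@[simp] lemma mul_v (x y : Aff p) : (x * y).v = x.u * y.v + x.v := rfl
@[simp] lemma one_u : (1 : Aff p).u = 1 := rfl
@[simp] lemma one_v : (1 : Aff p).v = 0 := rfl
@[simp] lemma inv_u (x : Aff p) : (x⁻¹).u = x.u⁻¹ := rfl
@[simp] lemma inv_v (x : Aff p) : (x⁻¹).v = -((x.u⁻¹ : (ZMod p)ˣ) * x.v) := rfl

instance : Group (Aff p) :=
  Group.ofLeftAxioms
    (by intro x y z; ext <;> simp [mul_assoc, mul_add, add_assoc])
    (by intro x; ext <;> simp)
    (by intro x; ext <;> simp)

/-- the underlying pair -/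
def toProd : Aff p ≃ (ZMod p)ˣ × ZMod p where
  toFun x := (x.u, x.v)
  invFun x := ⟨x.1, x.2⟩
  left_inv _ := rfl
  right_inv _ := rfl

instance [NeZero p] : Finite (Aff p) := Finite.of_equiv _ toProd.symm

lemma card [Fact p.Prime] : Nat.card (Aff p) = (p - 1) * p := by
  rw [Nat.card_congr toProd, Nat.card_prod, Nat.card_eq_fintype_card, ZMod.card_units,
    Nat.card_eq_fintype_card, ZMod.card]

/-- translation by one -/
def a (p : ℕ) : Aff p := ⟨1, 1⟩

lemma a_pow (n : ℕ) : (a p) ^ n = ⟨1, n⟩ := by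
  induction n with
  | zero => rw [pow_zero]; ext <;> simp
  | succ n ih => rw [pow_succ, ih]; ext <;> simp [a, add_comm]

/-- multiplication by `w` -/
def b (w : (ZMod p)ˣ) : Aff p := ⟨w, 0⟩

lemma b_pow (w : (ZMod p)ˣ) (n : ℕ) : (b w) ^ n = ⟨w ^ n, 0⟩ := by
  induction n with
  | zero => rw [pow_zero]; ext <;> simp
  | succ n ih => rw [pow_succ, ih]; ext <;> simp [b, pow_succ]

/-- the affine map `x ↦ a x b⁻¹` -/
def A (w : (ZMod p)ˣ) : Equiv.Perm (Aff p) :=
  (Equiv.mulLeft (a p)) * (Equiv.mulRight (b w)⁻¹)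

lemma A_apply (w : (ZMod p)ˣ) (x : Aff p) : A w x = a p * x * (b w)⁻¹ := by
  simp [A, mul_assoc]

lemma A_affine (w : (ZMod p)ˣ) : IsAffineMap (A w) := by
  refine ⟨a p * (b w)⁻¹, MulAut.conj (b w), ?_⟩
  intro x
  rw [A_apply, MulAut.conj_apply]
  group

lemma A_pow (w : (ZMod p)ˣ) (n : ℕ) (x : Aff p) :
    ((A w) ^ n) x = (a p) ^ n * x * ((b w) ^ n)⁻¹ := by
  induction n with
  | zero => simp
  | succ n ih =>
    rw [pow_succ' (A w), Equiv.Perm.mul_apply, ih, A_apply, pow_succ' (a p), pow_succ' (b w)]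
    simp only [mul_inv_rev, mul_assoc]

lemma A_pow_eq_one (w : (ZMod p)ˣ) (n : ℕ) :
    (A w) ^ n = 1 ↔ p ∣ n ∧ w ^ n = 1 := by
  constructor
  · intro h
    have h1 := A_pow w n 1
    rw [h, Equiv.Perm.one_apply, mul_one, eq_comm, mul_inv_eq_one, a_pow, b_pow] at h1
    have h2 := congrArg Aff.u h1
    have h3 := congrArg Aff.v h1
    simp only at h2 h3
    exact ⟨(ZMod.natCast_eq_zero_iff _ _).1 h3, h2.symm⟩
  · rintro ⟨h1, h2⟩
    have h3 : ((n : ℕ) : ZMod p) = 0 := (ZMod.natCast_eq_zero_iff _ _).2 h1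
    apply Equiv.ext
    intro x
    rw [A_pow, a_pow, b_pow, h2, h3, Equiv.Perm.one_apply]
    have h4 : (⟨1, 0⟩ : Aff p) = 1 := rfl
    rw [h4]
    simp

lemma orderOf_A [hp : Fact p.Prime] (w : (ZMod p)ˣ) (hw : orderOf w = p - 1) :
    orderOf (A w) = Nat.card (Aff p) := by
  rw [card]
  have hcop : Nat.Coprime (p - 1) p := by
    have := (Nat.coprime_self_sub_left (m := 1) (n := p) hp.out.one_lt.le).2 (by simp)
    exact this
  apply Nat.dvd_antisymm
  · rw [orderOf_dvd_iff_pow_eq_one, A_pow_eq_one]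
    refine ⟨Dvd.intro_left _ rfl, ?_⟩
    rw [← orderOf_dvd_iff_pow_eq_one, hw]
    exact Dvd.intro _ rfl
  · have h1 := (A_pow_eq_one w (orderOf (A w))).1 (pow_orderOf_eq_one _)
    refine Nat.Coprime.mul_dvd_of_dvd_of_dvd hcop ?_ h1.1
    rw [← hw]
    exact orderOf_dvd_of_pow_eq_one h1.2

lemma commute_iff (x y : Aff p) (h : Commute x y) :
    (x.u : ZMod p) * y.v + x.v = y.u * x.v + y.v := by
  have := congrArg Aff.v h.eq
  simpa using this

open Classical in
/-- encoding of the commuting pairs -/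
noncomputable def enc (q : {q : Aff p × Aff p // Commute q.1 q.2}) :
    Fin 3 × ZMod p × ZMod p × ZMod p :=
  if q.1.1.u ≠ 1 then (0, q.1.1.u, q.1.2.u, q.1.1.v)
  else if q.1.2.u = 1 then (1, q.1.1.v, q.1.2.v, 0) else (2, q.1.2.u, q.1.2.v, 0)

lemma enc_inj [hp : Fact p.Prime] : Function.Injective (enc (p := p)) := by
  rintro ⟨⟨x, y⟩, h⟩ ⟨⟨x', y'⟩, h'⟩ he
  have e1 := commute_iff _ _ h
  have e2 := commute_iff _ _ h'
  simp only [enc] at he
  simp only at e1 e2
  apply Subtype.ext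
  by_cases h1 : x.u = 1
  · by_cases h2 : y.u = 1
    · by_cases h3 : x'.u = 1
      · by_cases h4 : y'.u = 1
        · simp only [h1, h2, h3, h4, ne_eq, not_true_eq_false, if_true, if_false,
            Prod.mk.injEq] at he
          ext <;> simp [h1, h2, h3, h4, he]
        · simp [h1, h2, h3, h4] at he
      · simp [h1, h2, h3] at he
    · by_cases h3 : x'.u = 1
      · by_cases h4 : y'.u = 1
        · simp [h1, h2, h3, h4] at he
        · simp only [h1, h2, h3, h4, ne_eq, not_true_eq_false, if_false,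
            Prod.mk.injEq, Units.ext_iff.symm] at he
          have hx : x.v = 0 := by
            rw [h1] at e1
            have h5 : ((y.u : ZMod p) - 1) * x.v = 0 := by
              have : (1 : ZMod p) * y.v + x.v = y.u * x.v + y.v := by simpa using e1
              linear_combination -this
            rcases mul_eq_zero.1 h5 with h6 | h6
            · exact absurd (Units.ext (by simpa using sub_eq_zero.1 h6)) h2
            · exact h6
          have hx' : x'.v = 0 := by
            rw [h3] at e2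
            have h5 : ((y'.u : ZMod p) - 1) * x'.v = 0 := by
              have : (1 : ZMod p) * y'.v + x'.v = y'.u * x'.v + y'.v := by simpa using e2
              linear_combination -this
            rcases mul_eq_zero.1 h5 with h6 | h6
            · exact absurd (Units.ext (by simpa using sub_eq_zero.1 h6)) h4
            · exact h6
          have h7 : y.u = y'.u := he.2.1
          ext <;> simp [h1, h3, hx, hx', h7, he.2.2.1]
      · simp [h1, h2, h3] at he
  · by_cases h3 : x'.u = 1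
    · by_cases h4 : y'.u = 1
      · simp [h1, h3, h4] at he
      · simp [h1, h3, h4] at he
    · simp only [h1, h3, ne_eq, not_false_eq_true, if_true, Prod.mk.injEq] at he
      obtain ⟨-, e3, e4, e5⟩ := he
      have h5 : ((x.u : ZMod p) - 1) * (y.v - y'.v) = 0 := by
        rw [← e3, ← e4, ← e5] at e2
        linear_combination e1 - e2
      have h6 : y.v = y'.v := by
        rcases mul_eq_zero.1 h5 with h6 | h6
        · exact absurd (Units.ext (by simpa using sub_eq_zero.1 h6)) h1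
        · exact sub_eq_zero.1 h6
      have e3' : x.u = x'.u := Units.ext e3
      have e4' : y.u = y'.u := Units.ext e4
      ext <;> simp [e3', e4', e5, h6]

lemma card_comm [hp : Fact p.Prime] :
    Nat.card {q : Aff p × Aff p // Commute q.1 q.2} ≤ 3 * p ^ 3 := by
  have h := Nat.card_le_card_of_injective _ (enc_inj (p := p))
  rw [Nat.card_prod, Nat.card_prod, Nat.card_prod, Nat.card_eq_fintype_card (α := ZMod p),
    ZMod.card, Nat.card_eq_fintype_card (α := Fin 3), Fintype.card_fin] at h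
  calc _ ≤ _ := h
    _ = 3 * p ^ 3 := by ring

lemma commProb_le [hp : Fact p.Prime] : (commProb (Aff p) : ℝ) ≤ 6 / ((p : ℝ) - 1) := by
  have hp2 : (2 : ℝ) ≤ p := by exact_mod_cast hp.out.two_le
  have h1 : (Nat.card {q : Aff p × Aff p // Commute q.1 q.2} : ℝ) ≤ 3 * (p : ℝ) ^ 3 := by
    exact_mod_cast card_comm (p := p)
  have h2 : (Nat.card (Aff p) : ℝ) = ((p : ℝ) - 1) * p := by
    rw [card, Nat.cast_mul, Nat.cast_sub hp.out.one_lt.le, Nat.cast_one]
  have h3 : (commProb (Aff p) : ℝ) =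
      (Nat.card {q : Aff p × Aff p // Commute q.1 q.2} : ℝ) / (Nat.card (Aff p) : ℝ) ^ 2 := by
    rw [commProb]
    push_cast
    rfl
  have hp1 : (0 : ℝ) < (p : ℝ) - 1 := by linarith
  rw [h3, h2, div_le_div_iff₀ (by positivity) hp1]
  have h4 : (p : ℝ) ≤ 2 * ((p : ℝ) - 1) := by linarith
  calc (Nat.card {q : Aff p × Aff p // Commute q.1 q.2} : ℝ) * ((p : ℝ) - 1)
      ≤ 3 * (p : ℝ) ^ 3 * ((p : ℝ) - 1) := by gcongr
    _ = 3 * (p : ℝ) ^ 2 * ((p : ℝ) - 1) * p := by ring
    _ ≤ 3 * (p : ℝ) ^ 2 * ((p : ℝ) - 1) * (2 * ((p : ℝ) - 1)) := by gcongr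
    _ = 6 * (((p : ℝ) - 1) * p) ^ 2 := by ring

end Aff

/-- There are finite groups with an affine map of order equal to the order of the group and with
commuting probability as small as we like; in particular there is no function `f` as in Q1. -/
theorem result :
    (∀ ε : ℝ, 0 < ε → ∃ (G : Type) (_ : Group G) (_ : Finite G) (A : Equiv.Perm G),
      IsAffineMap A ∧ orderOf A = Nat.card G ∧ (commProb G : ℝ) < ε) ∧
    ¬ ∃ f : ℝ → ℝ, (∀ ρ : ℝ, 0 < ρ → ρ ≤ 1 → 0 < f ρ ∧ f ρ ≤ 1) ∧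
      ∀ ρ : ℝ, 0 < ρ → ρ ≤ 1 → ∀ (G : Type) [Group G] [Finite G],
        (∃ A : Equiv.Perm G, IsAffineMap A ∧ ρ * (Nat.card G : ℝ) ≤ (orderOf A : ℝ)) →
        f ρ ≤ (commProb G : ℝ) := by
  have key : ∀ ε : ℝ, 0 < ε → ∃ (G : Type) (_ : Group G) (_ : Finite G) (A : Equiv.Perm G),
      IsAffineMap A ∧ orderOf A = Nat.card G ∧ (commProb G : ℝ) < ε := by
    intro ε hε
    obtain ⟨N, hN⟩ := exists_nat_gt (6 / ε + 1)
    obtain ⟨p, hpN, hp⟩ := Nat.exists_infinite_primes (N + 1)
    have : Fact p.Prime := ⟨hp⟩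
    obtain ⟨w, hw⟩ := IsCyclic.exists_generator (α := (ZMod p)ˣ)
    have hw' : orderOf w = p - 1 := by
      rw [orderOf_eq_card_of_forall_mem_zpowers hw, Nat.card_eq_fintype_card, ZMod.card_units]
    refine ⟨Aff p, inferInstance, inferInstance, Aff.A w, Aff.A_affine w,
      Aff.orderOf_A w hw', lt_of_le_of_lt Aff.commProb_le ?_⟩
    have h1 : (N : ℝ) + 1 ≤ p := by exact_mod_cast hpN
    have h2 : 6 / ε < (p : ℝ) - 1 := by linarith
    have h3 : 0 < (p : ℝ) - 1 := lt_trans (by positivity) h2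
    rw [div_lt_iff₀ h3]
    rw [div_lt_iff₀ hε] at h2
    linarith
  refine ⟨key, ?_⟩
  rintro ⟨f, hf, h⟩
  obtain ⟨G, i1, i2, A, hA, ho, hc⟩ := key (f 1) (hf 1 one_pos le_rfl).1
  have h1 := h 1 one_pos le_rfl G ⟨A, hA, by rw [ho, one_mul]⟩
  exact absurd hc (not_lt.2 h1)

end Pool.Agent.Results.MP_1004d8_al.AffineCommProb
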